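import Pool.Agent.helper62.DP7.Spec

/-! # Row d7:CO1 -/

set_option autoImplicit false

namespace Pool.Agent.helper62.DP7

open Finset

theorem CO1 (hUNC : UNC_stmt) (hGRD : GRD_stmt) (hOUT : OUT_stmt) : CO1_stmt := by
  intro V W _ G R L hC A v h3 hv h1 hcol
  have key : Col G R L A (A \ {v}) := by
    rcases Nat.eq_zero_or_pos (nb G A v).card with h0 | h0
    · have hn : nb G A v = ∅ := Finset.card_eq_zero.mp h0
      refine hUNC V W G R L A {v} {v} (Finset.Subset.refl _) ?_ hcol
      intro s hs
      rw [Finset.mem_singleton.mp hs, hn]
      exact Finset.empty_subset _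
    · obtain ⟨u, hu⟩ := Finset.card_eq_one.mp (show (nb G A v).card = 1 by omega)
      have hu' : u ∈ nb G A v := by rw [hu]; exact Finset.mem_singleton_self u
      have huA := mem_nb.mp hu'
      have hne : u ≠ v := fun h => by
        have h2 := huA.2
        rw [h] at h2
        exact G.loopless.irrefl _ h2
      have hc1 : Col G R L A (A \ {v, u}) := by
        refine hUNC V W G R L A {v} {v, u} ?_ ?_ hcol
        · intro x hx
          rw [Finset.mem_singleton.mp hx]
          exact Finset.mem_insert_self _ _
        · intro s hs
          rw [Finset.mem_singleton.mp hs, hu]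
          intro x hx
          exact Finset.mem_insert_of_mem hx
      have hq : (qn G A (A \ {v, u}) u).card ≤ 6 := by
        have h := (hOUT V G A (A \ {v, u}) {v} u huA.1 Finset.sdiff_subset
          (Finset.singleton_subset_iff.mpr hv) (by
            rw [Finset.disjoint_singleton_left]
            intro h
            exact (Finset.mem_sdiff.mp h).2 (Finset.mem_insert_self _ _)) (by
            intro x hx
            rw [Finset.mem_singleton.mp hx]
            exact ⟨hne, Or.inl huA.2.symm⟩)).2.2.2.1 h3 ⟨v, mem_nb.mpr ⟨hv, huA.2.symm⟩, h1⟩
        rw [Finset.card_singleton] at h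
        have := h3 u huA.1
        omega
      have h := hGRD V W G R L hC A (A \ {v, u}) u hc1 hq
      have hset : insert u (A \ {v, u}) = A \ {v} := by
        ext x
        simp only [Finset.mem_insert, Finset.mem_sdiff, Finset.mem_singleton, not_or]
        constructor
        · rintro (h4 | ⟨h4, h5, _⟩)
          · rw [h4]; exact ⟨huA.1, hne⟩
          · exact ⟨h4, h5⟩
        · rintro ⟨h4, h5⟩
          by_cases h6 : x = u
          · exact Or.inl h6
          · exact Or.inr ⟨h4, h5, h6⟩
      rwa [hset] at h
  have hq : (qn G A (A \ {v}) v).card ≤ 6 := by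
    have h := (hOUT V G A (A \ {v}) ∅ v hv Finset.sdiff_subset (Finset.empty_subset _)
      (Finset.disjoint_empty_left _) (by
        intro x hx
        exact absurd hx (Finset.notMem_empty x))).2.1 h3
    rw [Finset.card_empty] at h
    omega
  have h := hGRD V W G R L hC A (A \ {v}) v key hq
  have hset : insert v (A \ {v}) = A := by
    ext x
    simp only [Finset.mem_insert, Finset.mem_sdiff, Finset.mem_singleton]
    constructor
    · rintro (h4 | ⟨h4, _⟩)
      · rw [h4]; exact hv
      · exact h4
    · intro h4
      by_cases h6 : x = v
      · exact Or.inl h6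
      · exact Or.inr ⟨h4, h6⟩
  rwa [hset] at h

end Pool.Agent.helper62.DP7
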